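import Pool.Agent.Helper99.LS.GH

open Filter Topology

namespace Pool.Agent.Helper42.LS

/-- two sided bound for the local terms -/
theorem gb_local (p : ℕ) [Fact p.Prime] (A B : ℤ) (hD : 4 * A ^ 3 + 27 * B ^ 2 ≠ 0) (x : ℚ) :
    nr p (4 * ((4 * A ^ 3 + 27 * B ^ 2 : ℤ) : ℚ)) * max (nr p x) 1 ^ 4 ≤
      max (nr p (th (A : ℚ) (B : ℚ) x)) (nr p (4 * cu (A : ℚ) (B : ℚ) x)) ∧
    max (nr p (th (A : ℚ) (B : ℚ) x)) (nr p (4 * cu (A : ℚ) (B : ℚ) x)) ≤
      max (nr p x) 1 ^ 4 := by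
  have hA : nr p (A : ℚ) ≤ 1 := gh_int p A
  have hB : nr p (B : ℚ) ≤ 1 := gh_int p B
  have h2 : nr p (2 : ℚ) ≤ 1 := gh_ofNat p 2
  have h3 : nr p (3 : ℚ) ≤ 1 := gh_ofNat p 3
  have h4 : nr p (4 : ℚ) ≤ 1 := gh_ofNat p 4
  have h5 : nr p (5 : ℚ) ≤ 1 := gh_ofNat p 5
  have h8 : nr p (8 : ℚ) ≤ 1 := gh_ofNat p 8
  have h27 : nr p (27 : ℚ) ≤ 1 := gh_ofNat p 27
  have hcD : nr p (4 * ((4 * A ^ 3 + 27 * B ^ 2 : ℤ) : ℚ)) ≤ 1 := gh_mul_le p h4 (gh_int p _)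
  by_cases hx : nr p x ≤ 1
  · rw [max_eq_right hx, one_pow, mul_one]
    have hth : nr p (th (A : ℚ) (B : ℚ) x) ≤ 1 := by
      unfold th
      exact gh_add_le1 p (gh_sub_le1 p (gh_sub_le1 p (gh_pow_le1 p hx 4)
        (gh_mul_le p (gh_mul_le p h2 hA) (gh_pow_le1 p hx 2)))
        (gh_mul_le p (gh_mul_le p h8 hB) hx)) (gh_pow_le1 p hA 2)
    have hcu : nr p (cu (A : ℚ) (B : ℚ) x) ≤ 1 := by
      unfold cu
      exact gh_add_le1 p (gh_add_le1 p (gh_pow_le1 p hx 3) (gh_mul_le p hA hx)) hB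
    refine ⟨?_, max_le hth (gh_mul_le p h4 hcu)⟩
    have key : 4 * ((4 * A ^ 3 + 27 * B ^ 2 : ℤ) : ℚ) =
        4 * (3 * x ^ 2 + 4 * A) * th (A : ℚ) (B : ℚ) x -
          (3 * x ^ 3 - 5 * A * x - 27 * B) * (4 * cu (A : ℚ) (B : ℚ) x) := by
      unfold th cu
      push_cast
      ring
    rw [key]
    refine (gh_sub_le p _ _).trans ?_
    rw [gh_mul p (4 * (3 * x ^ 2 + 4 * (A : ℚ))), gh_mul p (3 * x ^ 3 - 5 * (A : ℚ) * x - 27 * B)]
    have e1 : nr p (4 * (3 * x ^ 2 + 4 * (A : ℚ))) ≤ 1 :=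
      gh_mul_le p h4 (gh_add_le1 p (gh_mul_le p h3 (gh_pow_le1 p hx 2)) (gh_mul_le p h4 hA))
    have e2 : nr p (3 * x ^ 3 - 5 * (A : ℚ) * x - 27 * B) ≤ 1 :=
      gh_sub_le1 p (gh_sub_le1 p (gh_mul_le p h3 (gh_pow_le1 p hx 3))
        (gh_mul_le p (gh_mul_le p h5 hA) hx)) (gh_mul_le p h27 hB)
    exact max_le_max (mul_le_of_le_one_left (gh_nonneg p _) e1)
      (mul_le_of_le_one_left (gh_nonneg p _) e2)
  · push Not at hx
    rw [max_eq_left hx.le]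
    have hn0 : 0 < nr p x := zero_lt_one.trans hx
    have hcu : nr p (4 * cu (A : ℚ) (B : ℚ) x) ≤ nr p x ^ 3 := by
      rw [gh_mul]
      refine (mul_le_of_le_one_left (gh_nonneg p _) h4).trans ?_
      unfold cu
      refine (gh_add_le p _ _).trans (max_le ((gh_add_le p _ _).trans (max_le ?_ ?_)) ?_)
      · rw [gh_pow]
      · rw [gh_mul]
        calc nr p (A : ℚ) * nr p x ≤ 1 * nr p x := mul_le_mul_of_nonneg_right hA hn0.le
          _ = nr p x ^ 1 := by rw [one_mul, pow_one]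
          _ ≤ nr p x ^ 3 := pow_le_pow_right₀ hx.le (by norm_num)
      · exact hB.trans (one_le_pow₀ hx.le)
    have hth : nr p (th (A : ℚ) (B : ℚ) x) = nr p x ^ 4 := by
      have e1 : th (A : ℚ) (B : ℚ) x = x ^ 4 + (-(2 * A * x ^ 2) - 8 * B * x + A ^ 2) := by
        unfold th
        ring
      rw [e1, gh_add_lt, gh_pow]
      rw [gh_pow]
      have b1 : nr p (-(2 * (A : ℚ) * x ^ 2)) ≤ nr p x ^ 2 := by
        rw [gh_neg, gh_mul, gh_pow]
        exact mul_le_of_le_one_left (by positivity) (gh_mul_le p h2 hA)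
      have b2 : nr p (8 * (B : ℚ) * x) ≤ nr p x ^ 2 := by
        rw [gh_mul]
        calc nr p (8 * (B : ℚ)) * nr p x ≤ 1 * nr p x :=
              mul_le_mul_of_nonneg_right (gh_mul_le p h8 hB) hn0.le
          _ = nr p x ^ 1 := by rw [one_mul, pow_one]
          _ ≤ nr p x ^ 2 := pow_le_pow_right₀ hx.le (by norm_num)
      have b3 : nr p ((A : ℚ) ^ 2) ≤ nr p x ^ 2 :=
        (gh_pow_le1 p hA 2).trans (one_le_pow₀ hx.le)
      have b4 : nr p (-(2 * (A : ℚ) * x ^ 2) - 8 * B * x + A ^ 2) ≤ nr p x ^ 2 :=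
        (gh_add_le p _ _).trans (max_le ((gh_sub_le p _ _).trans (max_le b1 b2)) b3)
      exact b4.trans_lt (pow_lt_pow_right₀ hx (by norm_num))
    have h34 : nr p x ^ 3 ≤ nr p x ^ 4 := pow_le_pow_right₀ hx.le (by norm_num)
    rw [hth, max_eq_left (hcu.trans h34)]
    exact ⟨mul_le_of_le_one_left (by positivity) hcD, le_rfl⟩

theorem gb_log {c K m M : ℝ} (hc : 0 < c) (hM : 0 < M) (h1 : c * M ≤ m)
    (h2 : m ≤ K * M) : |Real.log m - Real.log M| ≤ |Real.log c| + |Real.log K| := by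
  have hm : 0 < m := (mul_pos hc hM).trans_le h1
  have hK : 0 < K := by
    by_contra hcon
    push Not at hcon
    have := mul_nonpos_of_nonpos_of_nonneg hcon hM.le
    linarith
  have e1 : Real.log c + Real.log M ≤ Real.log m := by
    rw [← Real.log_mul hc.ne' hM.ne']
    exact Real.log_le_log (mul_pos hc hM) h1
  have e2 : Real.log m ≤ Real.log K + Real.log M := by
    rw [← Real.log_mul hK.ne' hM.ne']
    exact Real.log_le_log hm h2
  have a1 := neg_abs_le (Real.log c)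
  have a2 := le_abs_self (Real.log K)
  have a3 := abs_nonneg (Real.log c)
  have a4 := abs_nonneg (Real.log K)
  rw [abs_le]
  constructor <;> linarith

/-- upper bound at the real place -/
theorem gb_real_upper (A B x : ℝ) :
    max |th A B x| |4 * cu A B x| ≤
      (5 + 6 * |A| + 12 * |B| + |A| ^ 2) * max |x| 1 ^ 4 := by
  obtain ⟨M, hM⟩ : ∃ M, M = max |x| 1 := ⟨_, rfl⟩
  have h1 : 1 ≤ M := hM ▸ le_max_right _ _
  have hx : |x| ≤ M := hM ▸ le_max_left _ _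
  rw [← hM]
  have ha := abs_nonneg A
  have hb := abs_nonneg B
  have hxn := abs_nonneg x
  have p2 : |x| ^ 2 ≤ M ^ 4 := (pow_le_pow_left₀ hxn hx 2).trans
    (pow_le_pow_right₀ h1 (by norm_num))
  have p3 : |x| ^ 3 ≤ M ^ 4 := (pow_le_pow_left₀ hxn hx 3).trans
    (pow_le_pow_right₀ h1 (by norm_num))
  have p4 : |x| ^ 4 ≤ M ^ 4 := pow_le_pow_left₀ hxn hx 4
  have p1 : |x| ≤ M ^ 4 := hx.trans (by
    calc M = M ^ 1 := (pow_one M).symm
      _ ≤ M ^ 4 := pow_le_pow_right₀ h1 (by norm_num))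
  have p0 : (1 : ℝ) ≤ M ^ 4 := one_le_pow₀ h1
  refine max_le ?_ ?_
  · have e1 : |th A B x| ≤ |x| ^ 4 + 2 * |A| * |x| ^ 2 + 8 * |B| * |x| + |A| ^ 2 := by
      unfold th
      have t1 : |x ^ 4 - 2 * A * x ^ 2 - 8 * B * x + A ^ 2| ≤
          |x ^ 4| + |2 * A * x ^ 2| + |8 * B * x| + |A ^ 2| := by
        have s1 := abs_add_le (x ^ 4 - 2 * A * x ^ 2 - 8 * B * x) (A ^ 2)
        have s2 := abs_sub (x ^ 4 - 2 * A * x ^ 2) (8 * B * x)
        have s3 := abs_sub (x ^ 4) (2 * A * x ^ 2)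
        linarith
      refine t1.trans (le_of_eq ?_)
      rw [abs_pow, abs_mul, abs_mul, abs_mul, abs_mul, abs_pow, abs_pow]
      norm_num
    refine e1.trans ?_
    have q2 : 2 * |A| * |x| ^ 2 ≤ 2 * |A| * M ^ 4 := mul_le_mul_of_nonneg_left p2 (by positivity)
    have q1 : 8 * |B| * |x| ≤ 8 * |B| * M ^ 4 := mul_le_mul_of_nonneg_left p1 (by positivity)
    have q0 : |A| ^ 2 ≤ |A| ^ 2 * M ^ 4 := le_mul_of_one_le_right (by positivity) p0
    have q3 : 0 ≤ |A| * M ^ 4 := by positivity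
    have q4 : 0 ≤ |B| * M ^ 4 := by positivity
    nlinarith
  · have e1 : |4 * cu A B x| ≤ 4 * |x| ^ 3 + 4 * |A| * |x| + 4 * |B| := by
      unfold cu
      have t1 : |x ^ 3 + A * x + B| ≤ |x ^ 3| + |A * x| + |B| := by
        have s1 := abs_add_le (x ^ 3 + A * x) B
        have s2 := abs_add_le (x ^ 3) (A * x)
        linarith
      rw [abs_mul, abs_of_pos (by norm_num : (0 : ℝ) < 4)]
      rw [abs_pow, abs_mul] at t1
      linarith
    refine e1.trans ?_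
    have q1 : 4 * |A| * |x| ≤ 4 * |A| * M ^ 4 := mul_le_mul_of_nonneg_left p1 (by positivity)
    have q0 : 4 * |B| ≤ 4 * |B| * M ^ 4 := le_mul_of_one_le_right (by positivity) p0
    have q3 : 0 ≤ |A| * M ^ 4 := by positivity
    have q4 : 0 ≤ |B| * M ^ 4 := by positivity
    have q5 : 0 ≤ |A| ^ 2 * M ^ 4 := by positivity
    nlinarith

/-- lower bound at the real place -/
theorem gb_real_lower (A B : ℝ) (hD : 4 * A ^ 3 + 27 * B ^ 2 ≠ 0) :
    ∃ c : ℝ, 0 < c ∧ ∀ x : ℝ, c * max |x| 1 ^ 4 ≤ max |th A B x| |4 * cu A B x| := by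
  have ha := abs_nonneg A
  have hb := abs_nonneg B
  obtain ⟨s, hs⟩ : ∃ s, s = 2 * |A| + 8 * |B| + |A| ^ 2 := ⟨_, rfl⟩
  have hs0 : 0 ≤ s := by rw [hs]; positivity
  obtain ⟨R, hR⟩ : ∃ R, R = 2 * s + 1 := ⟨_, rfl⟩
  have hR1 : 1 ≤ R := by rw [hR]; linarith
  obtain ⟨Lc, hL⟩ : ∃ Lc, Lc = 3 * R ^ 2 + 4 * |A| + (3 * R ^ 3 + 5 * |A| * R + 27 * |B|) := ⟨_, rfl⟩
  have hL0 : 0 < Lc := by
    have : 0 < R := by linarith
    rw [hL]
    positivity
  have hD0 : 0 < |4 * A ^ 3 + 27 * B ^ 2| := abs_pos.mpr hD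
  have hR4 : 0 < R ^ 4 := by positivity
  refine ⟨min (1 / 2) (|4 * A ^ 3 + 27 * B ^ 2| / (Lc * R ^ 4)), lt_min (by norm_num)
    (by positivity), fun x => ?_⟩
  have hxn := abs_nonneg x
  have hMpos : 0 ≤ max |x| 1 ^ 4 := by positivity
  by_cases hx : R ≤ x ^ 2
  · have hx1 : 1 ≤ |x| := by
      have h1 : 1 ≤ |x| ^ 2 := by rw [sq_abs]; linarith
      by_contra hcon
      push Not at hcon
      have := pow_lt_one₀ hxn hcon two_ne_zero
      linarith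
    rw [max_eq_left hx1]
    refine (mul_le_mul_of_nonneg_right (min_le_left _ _) (by positivity)).trans
      (le_trans ?_ (le_max_left _ _))
    have e1 : |x| ^ 4 - s * |x| ^ 2 ≤ |th A B x| := by
      unfold th
      have t1 : |x ^ 4| - |2 * A * x ^ 2| - |8 * B * x| - |A ^ 2| ≤
          |x ^ 4 - 2 * A * x ^ 2 - 8 * B * x + A ^ 2| := by
        have s0 := abs_sub_abs_le_abs_sub (x ^ 4) (2 * A * x ^ 2 + 8 * B * x - A ^ 2)
        have s1 := abs_sub (2 * A * x ^ 2 + 8 * B * x) (A ^ 2)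
        have s2 := abs_add_le (2 * A * x ^ 2) (8 * B * x)
        have s3 : x ^ 4 - (2 * A * x ^ 2 + 8 * B * x - A ^ 2) =
            x ^ 4 - 2 * A * x ^ 2 - 8 * B * x + A ^ 2 := by ring
        rw [s3] at s0
        linarith
      refine le_trans ?_ t1
      rw [abs_pow, abs_mul, abs_mul, abs_mul, abs_mul, abs_pow, abs_pow,
        abs_of_pos (by norm_num : (0 : ℝ) < 2), abs_of_pos (by norm_num : (0 : ℝ) < 8)]
      have q1 : |x| ≤ |x| ^ 2 := by nlinarith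
      have q0 : 1 ≤ |x| ^ 2 := one_le_pow₀ hx1
      have r1 : 8 * |B| * |x| ≤ 8 * |B| * |x| ^ 2 := mul_le_mul_of_nonneg_left q1 (by positivity)
      have r0 : |A| ^ 2 ≤ |A| ^ 2 * |x| ^ 2 := le_mul_of_one_le_right (by positivity) q0
      rw [hs]
      nlinarith
    have e2 : s * |x| ^ 2 ≤ 1 / 2 * |x| ^ 4 := by
      have : 2 * s ≤ |x| ^ 2 := by rw [sq_abs]; linarith
      nlinarith [sq_nonneg (|x|)]
    linarith
  · push Not at hx
    have hxR : |x| ≤ R := by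
      by_contra hcon
      push Not at hcon
      have h1 : R ^ 2 < |x| ^ 2 := pow_lt_pow_left₀ hcon (by linarith) two_ne_zero
      rw [sq_abs] at h1
      nlinarith
    have hMR : max |x| 1 ^ 4 ≤ R ^ 4 :=
      pow_le_pow_left₀ (by positivity) (max_le hxR hR1) 4
    obtain ⟨m, hm⟩ : ∃ m, m = max |th A B x| |4 * cu A B x| := ⟨_, rfl⟩
    have hm1 : |th A B x| ≤ m := hm ▸ le_max_left _ _
    have hm2 : |4 * cu A B x| ≤ m := hm ▸ le_max_right _ _
    have hm0 : 0 ≤ m := (abs_nonneg _).trans hm1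
    have hm3 : |cu A B x| ≤ m := by
      refine le_trans ?_ hm2
      rw [abs_mul, abs_of_pos (by norm_num : (0 : ℝ) < 4)]
      have := abs_nonneg (cu A B x)
      linarith
    rw [← hm]
    have key : 4 * A ^ 3 + 27 * B ^ 2 =
        (3 * x ^ 2 + 4 * A) * th A B x - (3 * x ^ 3 - 5 * A * x - 27 * B) * cu A B x := by
      unfold th cu
      ring
    have k1 : |3 * x ^ 2 + 4 * A| ≤ 3 * R ^ 2 + 4 * |A| := by
      have s1 := abs_add_le (3 * x ^ 2) (4 * A)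
      rw [abs_mul, abs_mul, abs_pow, abs_of_pos (by norm_num : (0 : ℝ) < 3),
        abs_of_pos (by norm_num : (0 : ℝ) < 4)] at s1
      have s2 : |x| ^ 2 ≤ R ^ 2 := pow_le_pow_left₀ hxn hxR 2
      linarith
    have k2 : |3 * x ^ 3 - 5 * A * x - 27 * B| ≤ 3 * R ^ 3 + 5 * |A| * R + 27 * |B| := by
      have s1 := abs_sub (3 * x ^ 3 - 5 * A * x) (27 * B)
      have s2 := abs_sub (3 * x ^ 3) (5 * A * x)
      rw [abs_mul, abs_pow, abs_of_pos (by norm_num : (0 : ℝ) < 3), abs_mul (5 * A) x,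
        abs_mul 5 A, abs_of_pos (by norm_num : (0 : ℝ) < 5)] at s2
      rw [abs_mul 27 B, abs_of_pos (by norm_num : (0 : ℝ) < 27)] at s1
      have s3 : |x| ^ 3 ≤ R ^ 3 := pow_le_pow_left₀ hxn hxR 3
      have s4 : 5 * |A| * |x| ≤ 5 * |A| * R := mul_le_mul_of_nonneg_left hxR (by positivity)
      linarith
    have e1 : |4 * A ^ 3 + 27 * B ^ 2| ≤ Lc * m := by
      rw [key]
      refine (abs_sub _ _).trans ?_
      rw [abs_mul, abs_mul, hL, add_mul]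
      exact add_le_add (mul_le_mul k1 hm1 (abs_nonneg _) ((abs_nonneg _).trans k1))
        (mul_le_mul k2 hm3 (abs_nonneg _) ((abs_nonneg _).trans k2))
    calc min (1 / 2) (|4 * A ^ 3 + 27 * B ^ 2| / (Lc * R ^ 4)) * max |x| 1 ^ 4
        ≤ |4 * A ^ 3 + 27 * B ^ 2| / (Lc * R ^ 4) * R ^ 4 :=
          mul_le_mul (min_le_right _ _) hMR hMpos (by positivity)
      _ = |4 * A ^ 3 + 27 * B ^ 2| / Lc := by
          field_simp
      _ ≤ m := by
          rw [div_le_iff₀ hL0]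
          linarith

theorem st_GB (hGH : ST_GH) : ST_GB := by
  intro A B hD
  have hDR : 4 * (A : ℝ) ^ 3 + 27 * (B : ℝ) ^ 2 ≠ 0 := by
    intro h
    apply hD
    have : ((4 * A ^ 3 + 27 * B ^ 2 : ℤ) : ℝ) = 0 := by push_cast; exact h
    exact_mod_cast this
  obtain ⟨c, hc, hlow⟩ := gb_real_lower (A : ℝ) (B : ℝ) hDR
  refine ⟨(|Real.log c| + |Real.log (5 + 6 * |(A : ℝ)| + 12 * |(B : ℝ)| + |(A : ℝ)| ^ 2)|) +
    ∑ p ∈ (2 * (4 * A ^ 3 + 27 * B ^ 2)).natAbs.primeFactors,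
      (|Real.log (nr p (4 * ((4 * A ^ 3 + 27 * B ^ 2 : ℤ) : ℚ)))| + |Real.log 1|), ?_⟩
  intro x hcu
  rw [hGH A B hD x hcu]
  have e0 : 4 * hQ x + (Real.log (max |((th (A : ℚ) (B : ℚ) x : ℚ) : ℝ)|
        |((4 * cu (A : ℚ) (B : ℚ) x : ℚ) : ℝ)|) - 4 * Real.log (max |(x : ℝ)| 1))
      + ∑ p ∈ (2 * (4 * A ^ 3 + 27 * B ^ 2)).natAbs.primeFactors,
        (Real.log (max (nr p (th (A : ℚ) (B : ℚ) x)) (nr p (4 * cu (A : ℚ) (B : ℚ) x)))
          - 4 * Real.log (max (nr p x) 1)) - 4 * hQ x =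
      (Real.log (max |((th (A : ℚ) (B : ℚ) x : ℚ) : ℝ)|
        |((4 * cu (A : ℚ) (B : ℚ) x : ℚ) : ℝ)|) - 4 * Real.log (max |(x : ℝ)| 1))
      + ∑ p ∈ (2 * (4 * A ^ 3 + 27 * B ^ 2)).natAbs.primeFactors,
        (Real.log (max (nr p (th (A : ℚ) (B : ℚ) x)) (nr p (4 * cu (A : ℚ) (B : ℚ) x)))
          - 4 * Real.log (max (nr p x) 1)) := by ring
  rw [e0]
  refine (abs_add_le _ _).trans (add_le_add ?_ ?_)
  · have c1 : ((th (A : ℚ) (B : ℚ) x : ℚ) : ℝ) = th (A : ℝ) (B : ℝ) (x : ℝ) := by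
      unfold th
      push_cast
      ring
    have c2 : ((4 * cu (A : ℚ) (B : ℚ) x : ℚ) : ℝ) = 4 * cu (A : ℝ) (B : ℝ) (x : ℝ) := by
      unfold cu
      push_cast
      ring
    rw [c1, c2]
    have e1 : 4 * Real.log (max |(x : ℝ)| 1) = Real.log (max |(x : ℝ)| 1 ^ 4) := by
      rw [Real.log_pow]
      push_cast
      ring
    rw [e1]
    exact gb_log hc (by positivity) (hlow x) (gb_real_upper (A : ℝ) (B : ℝ) (x : ℝ))
  · refine (Finset.abs_sum_le_sum_abs _ _).trans (Finset.sum_le_sum fun p hp => ?_)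
    have hpp := Nat.prime_of_mem_primeFactors hp
    haveI : Fact p.Prime := ⟨hpp⟩
    have e1 : 4 * Real.log (max (nr p x) 1) = Real.log (max (nr p x) 1 ^ 4) := by
      rw [Real.log_pow]
      push_cast
      ring
    rw [e1]
    obtain ⟨l1, l2⟩ := gb_local p A B hD x
    refine gb_log ?_ (by positivity) l1 (by rw [one_mul]; exact l2)
    unfold nr
    have h4 : (4 * ((4 * A ^ 3 + 27 * B ^ 2 : ℤ) : ℚ)) ≠ 0 :=
      mul_ne_zero four_ne_zero (by exact_mod_cast hD)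
    have h5 : padicNorm p (4 * ((4 * A ^ 3 + 27 * B ^ 2 : ℤ) : ℚ)) ≠ 0 :=
      padicNorm.nonzero h4
    have h6 := padicNorm.nonneg (p := p) (4 * ((4 * A ^ 3 + 27 * B ^ 2 : ℤ) : ℚ))
    exact_mod_cast lt_of_le_of_ne h6 (Ne.symm h5)

end Pool.Agent.Helper42.LS
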