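import Pool.Agent.Helper42.LS.Defs

open Filter Topology

namespace Pool.Agent.Helper42.LS

theorem gh_mul (p : ℕ) [Fact p.Prime] (a b : ℚ) : nr p (a * b) = nr p a * nr p b := by
  unfold nr
  rw [padicNorm.mul]
  push_cast
  rfl

theorem gh_pow (p : ℕ) [Fact p.Prime] (a : ℚ) (n : ℕ) : nr p (a ^ n) = nr p a ^ n := by
  induction n with
  | zero => simp [nr]
  | succ n ih => rw [pow_succ, gh_mul, ih, pow_succ]

theorem gh_nonneg (p : ℕ) (a : ℚ) : 0 ≤ nr p a := by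
  unfold nr
  exact_mod_cast padicNorm.nonneg a

theorem gh_add_le (p : ℕ) [Fact p.Prime] (a b : ℚ) : nr p (a + b) ≤ max (nr p a) (nr p b) := by
  unfold nr
  exact_mod_cast padicNorm.nonarchimedean (p := p) (q := a) (r := b)

theorem gh_neg (p : ℕ) [Fact p.Prime] (a : ℚ) : nr p (-a) = nr p a := by
  unfold nr
  rw [padicNorm.neg]

theorem gh_sub_le (p : ℕ) [Fact p.Prime] (a b : ℚ) : nr p (a - b) ≤ max (nr p a) (nr p b) := by
  rw [sub_eq_add_neg]
  have := gh_add_le p a (-b)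
  rwa [gh_neg] at this

theorem gh_add_lt (p : ℕ) [Fact p.Prime] {a b : ℚ} (h : nr p b < nr p a) :
    nr p (a + b) = nr p a := by
  have h1 : padicNorm p a ≠ padicNorm p b := by
    intro hc
    unfold nr at h
    rw [hc] at h
    exact lt_irrefl _ h
  have h2 := padicNorm.add_eq_max_of_ne (p := p) h1
  have h3 : padicNorm p b ≤ padicNorm p a := by
    unfold nr at h
    exact_mod_cast h.le
  rw [max_eq_left h3] at h2
  unfold nr
  rw [h2]

theorem gh_int (p : ℕ) [Fact p.Prime] (m : ℤ) : nr p (m : ℚ) ≤ 1 := by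
  unfold nr
  exact_mod_cast padicNorm.of_int m

theorem gh_nat (p : ℕ) [Fact p.Prime] (m : ℕ) : nr p (m : ℚ) ≤ 1 := by
  have := gh_int p (m : ℤ)
  simpa using this

theorem gh_ofNat (p : ℕ) [Fact p.Prime] (m : ℕ) [m.AtLeastTwo] :
    nr p (OfNat.ofNat m : ℚ) ≤ 1 := by
  have := gh_nat p (OfNat.ofNat m)
  simpa using this

/-- products of numbers of norm at most one -/
theorem gh_mul_le (p : ℕ) [Fact p.Prime] {a b : ℚ} (ha : nr p a ≤ 1) (hb : nr p b ≤ 1) :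
    nr p (a * b) ≤ 1 := by
  rw [gh_mul]
  exact mul_le_one₀ ha (gh_nonneg p b) hb

theorem gh_add_le1 (p : ℕ) [Fact p.Prime] {a b : ℚ} (ha : nr p a ≤ 1) (hb : nr p b ≤ 1) :
    nr p (a + b) ≤ 1 := (gh_add_le p a b).trans (max_le ha hb)

theorem gh_sub_le1 (p : ℕ) [Fact p.Prime] {a b : ℚ} (ha : nr p a ≤ 1) (hb : nr p b ≤ 1) :
    nr p (a - b) ≤ 1 := (gh_sub_le p a b).trans (max_le ha hb)

theorem gh_pow_le1 (p : ℕ) [Fact p.Prime] {a : ℚ} (ha : nr p a ≤ 1) (n : ℕ) :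
    nr p (a ^ n) ≤ 1 := by
  rw [gh_pow]
  exact pow_le_one₀ (gh_nonneg p a) ha

/-- the local terms at the primes of good reduction -/
theorem gh_local (p : ℕ) [Fact p.Prime] (A B : ℤ) (h4 : nr p 4 = 1)
    (hD : nr p ((4 * A ^ 3 + 27 * B ^ 2 : ℤ) : ℚ) = 1) (x : ℚ) :
    max (nr p (th (A : ℚ) (B : ℚ) x)) (nr p (4 * cu (A : ℚ) (B : ℚ) x)) = max (nr p x) 1 ^ 4 := by
  have hA : nr p (A : ℚ) ≤ 1 := gh_int p A
  have hB : nr p (B : ℚ) ≤ 1 := gh_int p B
  have h2 : nr p (2 : ℚ) ≤ 1 := gh_ofNat p 2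
  have h3 : nr p (3 : ℚ) ≤ 1 := gh_ofNat p 3
  have h5 : nr p (5 : ℚ) ≤ 1 := gh_ofNat p 5
  have h8 : nr p (8 : ℚ) ≤ 1 := gh_ofNat p 8
  have h27 : nr p (27 : ℚ) ≤ 1 := gh_ofNat p 27
  have hcu4 : nr p (4 * cu (A : ℚ) (B : ℚ) x) = nr p (cu (A : ℚ) (B : ℚ) x) := by
    rw [gh_mul, h4, one_mul]
  rw [hcu4]
  by_cases hx : nr p x ≤ 1
  · rw [max_eq_right hx, one_pow]
    have hth : nr p (th (A : ℚ) (B : ℚ) x) ≤ 1 := by
      unfold th
      exact gh_add_le1 p (gh_sub_le1 p (gh_sub_le1 p (gh_pow_le1 p hx 4)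
        (gh_mul_le p (gh_mul_le p h2 hA) (gh_pow_le1 p hx 2)))
        (gh_mul_le p (gh_mul_le p h8 hB) hx)) (gh_pow_le1 p hA 2)
    have hcu : nr p (cu (A : ℚ) (B : ℚ) x) ≤ 1 := by
      unfold cu
      exact gh_add_le1 p (gh_add_le1 p (gh_pow_le1 p hx 3) (gh_mul_le p hA hx)) hB
    refine le_antisymm (max_le hth hcu) ?_
    have key : ((4 * A ^ 3 + 27 * B ^ 2 : ℤ) : ℚ) =
        (3 * x ^ 2 + 4 * A) * th (A : ℚ) (B : ℚ) x -
          (3 * x ^ 3 - 5 * A * x - 27 * B) * cu (A : ℚ) (B : ℚ) x := by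
      unfold th cu
      push_cast
      ring
    rw [← hD, key]
    refine (gh_sub_le p _ _).trans ?_
    rw [gh_mul, gh_mul]
    have e1 : nr p (3 * x ^ 2 + 4 * A) ≤ 1 :=
      gh_add_le1 p (gh_mul_le p h3 (gh_pow_le1 p hx 2)) (gh_mul_le p h4.le hA)
    have e2 : nr p (3 * x ^ 3 - 5 * A * x - 27 * B) ≤ 1 :=
      gh_sub_le1 p (gh_sub_le1 p (gh_mul_le p h3 (gh_pow_le1 p hx 3))
        (gh_mul_le p (gh_mul_le p h5 hA) hx)) (gh_mul_le p h27 hB)
    exact max_le_max (mul_le_of_le_one_left (gh_nonneg p _) e1)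
      (mul_le_of_le_one_left (gh_nonneg p _) e2)
  · push Not at hx
    rw [max_eq_left hx.le]
    have hn0 : 0 < nr p x := zero_lt_one.trans hx
    have hcu : nr p (cu (A : ℚ) (B : ℚ) x) ≤ nr p x ^ 3 := by
      unfold cu
      refine (gh_add_le p _ _).trans (max_le ((gh_add_le p _ _).trans (max_le ?_ ?_)) ?_)
      · rw [gh_pow]
      · rw [gh_mul]
        calc nr p (A : ℚ) * nr p x ≤ 1 * nr p x := mul_le_mul_of_nonneg_right hA hn0.le
          _ = nr p x ^ 1 := by rw [one_mul, pow_one]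
          _ ≤ nr p x ^ 3 := pow_le_pow_right₀ hx.le (by norm_num)
      · exact hB.trans (one_le_pow₀ hx.le)
    have hth : nr p (th (A : ℚ) (B : ℚ) x) = nr p x ^ 4 := by
      have e1 : th (A : ℚ) (B : ℚ) x = x ^ 4 + (-(2 * A * x ^ 2) - 8 * B * x + A ^ 2) := by
        unfold th
        ring
      rw [e1, gh_add_lt, gh_pow]
      rw [gh_pow]
      have b1 : nr p (-(2 * (A : ℚ) * x ^ 2)) ≤ nr p x ^ 2 := by
        rw [gh_neg, gh_mul, gh_pow]
        exact mul_le_of_le_one_left (by positivity) (gh_mul_le p h2 hA)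
      have b2 : nr p (8 * (B : ℚ) * x) ≤ nr p x ^ 2 := by
        rw [gh_mul]
        calc nr p (8 * (B : ℚ)) * nr p x ≤ 1 * nr p x :=
              mul_le_mul_of_nonneg_right (gh_mul_le p h8 hB) hn0.le
          _ = nr p x ^ 1 := by rw [one_mul, pow_one]
          _ ≤ nr p x ^ 2 := pow_le_pow_right₀ hx.le (by norm_num)
      have b3 : nr p ((A : ℚ) ^ 2) ≤ nr p x ^ 2 :=
        (gh_pow_le1 p hA 2).trans (one_le_pow₀ hx.le)
      have b4 : nr p (-(2 * (A : ℚ) * x ^ 2) - 8 * B * x + A ^ 2) ≤ nr p x ^ 2 :=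
        (gh_add_le p _ _).trans (max_le ((gh_sub_le p _ _).trans (max_le b1 b2)) b3)
      exact b4.trans_lt (pow_lt_pow_right₀ hx (by norm_num))
    rw [hth]
    exact max_eq_left (hcu.trans (pow_le_pow_right₀ hx.le (by norm_num)))

theorem gh_den (p : ℕ) [Fact p.Prime] (x : ℚ) (h : ¬ p ∣ x.den) : nr p x ≤ 1 := by
  have h1 : nr p (x.den : ℚ) = 1 := by
    unfold nr
    rw [(padicNorm.nat_eq_one_iff x.den).mpr h]
    norm_num
  have h2 : x * x.den = x.num := Rat.mul_den_eq_num x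
  have h3 : nr p x * nr p (x.den : ℚ) = nr p (x.num : ℚ) := by
    rw [← gh_mul, h2]
  rw [h1, mul_one] at h3
  rw [h3]
  exact gh_int p _

theorem st_GH (hHL : ST_HL) : ST_GH := by
  intro A B hD x hcu
  have hD2 : (2 * (4 * A ^ 3 + 27 * B ^ 2)).natAbs ≠ 0 := by
    rw [Int.natAbs_ne_zero]
    exact mul_ne_zero two_ne_zero hD
  -- norms at the primes of good reduction
  have hgood : ∀ p : ℕ, p.Prime → p ∉ (2 * (4 * A ^ 3 + 27 * B ^ 2)).natAbs.primeFactors →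
      max (nr p (th (A : ℚ) (B : ℚ) x)) (nr p (4 * cu (A : ℚ) (B : ℚ) x)) =
        max (nr p x) 1 ^ 4 := by
    intro p hp hpn
    haveI : Fact p.Prime := ⟨hp⟩
    have h1 : ¬ p ∣ (2 * (4 * A ^ 3 + 27 * B ^ 2)).natAbs := fun h =>
      hpn (Nat.mem_primeFactors.mpr ⟨hp, h, hD2⟩)
    have h2 : ¬ (p : ℤ) ∣ 2 * (4 * A ^ 3 + 27 * B ^ 2) := fun h =>
      h1 (Int.natCast_dvd.mp h)
    have h3 : ¬ (p : ℤ) ∣ 2 := fun h => h2 (Dvd.dvd.mul_right h _)
    have h4 : ¬ (p : ℤ) ∣ (4 * A ^ 3 + 27 * B ^ 2) := fun h => h2 (Dvd.dvd.mul_left h _)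
    have h5 : nr p (2 : ℚ) = 1 := by
      have := (padicNorm.int_eq_one_iff (p := p) 2).mpr h3
      unfold nr
      have h6 : padicNorm p (2 : ℚ) = 1 := by exact_mod_cast this
      rw [h6]
      norm_num
    have h7 : nr p (4 : ℚ) = 1 := by
      have : (4 : ℚ) = 2 ^ 2 := by norm_num
      rw [this, gh_pow, h5, one_pow]
    refine gh_local p A B h7 ?_ x
    have := (padicNorm.int_eq_one_iff (p := p) (4 * A ^ 3 + 27 * B ^ 2)).mpr h4
    unfold nr
    rw [this]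
    norm_num
  obtain ⟨T, hT⟩ : ∃ T, T = (2 * (4 * A ^ 3 + 27 * B ^ 2)).natAbs.primeFactors ∪
      x.den.primeFactors := ⟨_, rfl⟩
  have hTp : ∀ p ∈ T, p.Prime := by
    intro p hp
    rw [hT, Finset.mem_union] at hp
    rcases hp with h | h <;> exact Nat.prime_of_mem_primeFactors h
  have hx1 : ∀ p : ℕ, p.Prime → p ∉ T → nr p x ≤ 1 := by
    intro p hp hpT
    haveI : Fact p.Prime := ⟨hp⟩
    refine gh_den p x fun h => hpT ?_
    rw [hT, Finset.mem_union]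
    exact Or.inr (Nat.mem_primeFactors.mpr ⟨hp, h, x.den_nz⟩)
  have hnr1 : ∀ p : ℕ, p.Prime → nr p (1 : ℚ) = 1 := by
    intro p _
    unfold nr
    rw [padicNorm.one]
    norm_num
  have e1 := hHL (th (A : ℚ) (B : ℚ) x) (4 * cu (A : ℚ) (B : ℚ) x)
    (mul_ne_zero four_ne_zero hcu) T hTp (by
    intro p hp hpT
    rw [hgood p hp (fun h => hpT (by rw [hT, Finset.mem_union]; exact Or.inl h)),
      max_eq_right (hx1 p hp hpT), one_pow])
  have e2 := hHL x 1 one_ne_zero T hTp (by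
    intro p hp hpT
    rw [hnr1 p hp, max_eq_right (hx1 p hp hpT)])
  rw [div_one] at e2
  have e3 : ∑ p ∈ (2 * (4 * A ^ 3 + 27 * B ^ 2)).natAbs.primeFactors,
        (Real.log (max (nr p (th (A : ℚ) (B : ℚ) x)) (nr p (4 * cu (A : ℚ) (B : ℚ) x)))
          - 4 * Real.log (max (nr p x) 1)) =
      ∑ p ∈ T, (Real.log (max (nr p (th (A : ℚ) (B : ℚ) x)) (nr p (4 * cu (A : ℚ) (B : ℚ) x)))
          - 4 * Real.log (max (nr p x) 1)) := by
    refine Finset.sum_subset (by rw [hT]; exact Finset.subset_union_left) ?_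
    intro p hpT hpn
    rw [hgood p (hTp p hpT) hpn, Real.log_pow]
    push_cast
    ring
  have e4 : ∑ p ∈ T, Real.log (max (nr p x) (nr p (1 : ℚ))) =
      ∑ p ∈ T, Real.log (max (nr p x) 1) :=
    Finset.sum_congr rfl fun p hp => by rw [hnr1 p (hTp p hp)]
  rw [e4] at e2
  rw [e3, Finset.sum_sub_distrib, ← Finset.mul_sum, e1, e2]
  have e5 : |((1 : ℚ) : ℝ)| = 1 := by norm_num
  rw [e5]
  ring

end Pool.Agent.Helper42.LS
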